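import Mathlib
import Pool.Agent.H286R2.UC.Defs
import Pool.Agent.H286R2.UC.Stubs

set_option autoImplicit false

namespace Pool.Agent.H286R2.UC.U11aux

open Real Finset Pool.Agent.H117R2 Pool.Agent.H117R2.UC Pool.Agent.H286R2.UC

/-- the pointwise inequality -/
theorem point {z η m e : ℝ} (hz0 : 0 ≤ z) (hz1 : z ≤ 1) (hη0 : 0 ≤ η) (hη1 : η ≤ log 2)
    (hm1 : 615 / 1000 ≤ m) (hm2 : m ≤ 62 / 100) (he1 : 3319 / 10000 ≤ e) (he2 : e ≤ 2 / 3) :
    0 ≤ 191 / 500 * ((e * z + m * η) / 2 - z * η / ((z / m + η / e) / 2))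
      + 2427 / 10000 * ((z - m) * (η - e)) - 923 / 100000 * (m * e) + 785 / 100000 * m
      + 6 / 1000 * (z - m) - 3772 / 100000 * ((z - m) ^ 2 / m) := by
  have hm0 : 0 < m := by linarith
  have he0 : 0 < e := by linarith
  have hlog : log 2 < 0.6931471808 := Real.log_two_lt_d9
  obtain ⟨u, hu⟩ : ∃ u, u = z / m := ⟨_, rfl⟩
  obtain ⟨v, hv⟩ : ∃ v, v = η / e := ⟨_, rfl⟩
  have ez : z = m * u := by rw [hu]; field_simp
  have eη : η = e * v := by rw [hv]; field_simp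
  have hu0 : 0 ≤ u := by rw [hu]; positivity
  have hv0 : 0 ≤ v := by rw [hv]; positivity
  have hu1 : u ≤ 16261 / 10000 := by
    rw [hu, div_le_iff₀ hm0]; nlinarith
  have hv1 : v ≤ 21 / 10 := by
    rw [hv, div_le_iff₀ he0]; nlinarith
  rw [← hu, ← hv]
  rcases (add_nonneg hu0 hv0).eq_or_lt with hs | hs
  · have h1 : u = 0 := by linarith
    have h2 : v = 0 := by linarith
    rw [ez, eη, h1, h2]
    have e3 : (m * 0 - m) ^ 2 / m = m := by field_simp; ring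
    rw [e3]
    simp only [mul_zero, add_zero, zero_div, sub_self, zero_sub]
    nlinarith
  · have hg0 : 3 / 2 ≤ 1 / e := by rw [le_div_iff₀ he0]; linarith
    have hg1 : 1 / e ≤ 302 / 100 := by rw [div_le_iff₀ he0]; linarith
    have hp := Stub.poly hu0 hu1 hv0 hv1 hg0 hg1
    have key : 191 / 500 * ((e * z + m * η) / 2 - z * η / ((u + v) / 2))
      + 2427 / 10000 * ((z - m) * (η - e)) - 923 / 100000 * (m * e) + 785 / 100000 * m
      + 6 / 1000 * (z - m) - 3772 / 100000 * ((z - m) ^ 2 / m) =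
      m * e * (191 / 500 * (u - v) ^ 2 + 2 * (u + v) *
      (2427 / 10000 * ((u - 1) * (v - 1)) - 923 / 100000 +
        (1 / e) * (785 / 100000 + 6 / 1000 * (u - 1) - 3772 / 100000 * (u - 1) ^ 2))) /
        (2 * (u + v)) := by
      rw [ez, eη]
      have hne : u + v ≠ 0 := hs.ne'
      field_simp
      ring
    rw [key]
    positivity

theorem law_on {ι : Type*} (N : Finset ι) (hN : N.Nonempty) (z η : ι → ℝ)
    (hz0 : ∀ i ∈ N, 0 ≤ z i) (hz1 : ∀ i ∈ N, z i ≤ 1) (hη0 : ∀ i ∈ N, 0 ≤ η i)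
    (hη1 : ∀ i ∈ N, η i ≤ log 2) {m e : ℝ} (hm : ∑ i ∈ N, z i = m * N.card)
    (he : ∑ i ∈ N, η i = e * N.card) (hm1 : 615 / 1000 ≤ m) (hm2 : m ≤ 62 / 100)
    (he1 : 3319 / 10000 ≤ e) (he2 : e ≤ 2 / 3) :
    1 / 10000 ≤ (2 * m - 1 - 3 / 20) * e
      - 191 / 500 * ((∑ i ∈ N, √(z i * η i)) / N.card) ^ 2
      + 2427 / 10000 * ((∑ i ∈ N, z i * η i) / N.card)
      + 3 / 20 * log (3 / 2) * (m - (∑ i ∈ N, z i ^ 2) / N.card)
      + 3 / 20 * log (24 / 25) - max 0 (1 - 809 / 500 * m) * (2 / 3) := by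
  have hm0 : 0 < m := by linarith
  have he0 : 0 < e := by linarith
  have hn : (0 : ℝ) < N.card := by exact_mod_cast card_pos.2 hN
  obtain ⟨hl1, hl2⟩ := Stub.log_three_halves
  have hl3 := Stub.log_24_25
  set n : ℝ := (N.card : ℝ) with hndef
  obtain ⟨κ, hκ⟩ : ∃ κ, κ = 3 / 20 * log (3 / 2) := ⟨_, rfl⟩
  obtain ⟨c, hc⟩ : ∃ c, c = 3 / 20 * log (24 / 25) := ⟨_, rfl⟩
  obtain ⟨M, hM⟩ : ∃ M, M = max 0 (1 - 809 / 500 * m) := ⟨_, rfl⟩
  rw [← hκ, ← hc, ← hM]
  have hκ1 : 6081 / 100000 ≤ κ := by rw [hκ]; linarith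
  have hκ2 : κ ≤ 60825 / 1000000 := by rw [hκ]; linarith
  have hc1 : -(61245 / 10000000) ≤ c := by rw [hc]; linarith
  -- constants
  have hCI : 785 / 100000 * m + 1 / 10000 ≤ κ * m * (1 - m) + c - M * (2 / 3) := by
    have h1 : 6081 / 100000 * (m * (1 - m)) ≤ κ * m * (1 - m) := by
      have : 0 ≤ m * (1 - m) := mul_nonneg hm0.le (by linarith)
      nlinarith
    rcases le_total 0 (1 - 809 / 500 * m) with h | h
    · rw [hM, max_eq_right h]
      nlinarith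
    · rw [hM, max_eq_left h]
      nlinarith
  have hCII : 115 / 100 * (1 - 809 / 500 * m) * e ≤ 923 / 100000 * (m * e) := by
    have : 115 / 100 * (1 - 809 / 500 * m) ≤ 923 / 100000 * m := by linarith
    nlinarith
  have hCIII : ∀ t : ℝ, κ * t ^ 2 ≤ 3772 / 100000 * (t ^ 2 / m) := by
    intro t
    have h1 : κ * m ≤ 3772 / 100000 := by nlinarith
    have h2 : 3772 / 100000 * (t ^ 2 / m) = 3772 / 100000 / m * t ^ 2 := by ring
    rw [h2]
    apply mul_le_mul_of_nonneg_right _ (sq_nonneg t)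
    rw [le_div_iff₀ hm0]
    exact h1
  -- the weights
  obtain ⟨q, hq⟩ : ∃ q : ι → ℝ, q = fun i => z i * η i / ((z i / m + η i / e) / 2) := ⟨_, rfl⟩
  have hpt : ∀ i ∈ N, 1 / 10000 ≤ 191 / 500 * ((e * z i + m * η i) / 2 - q i)
      + 2427 / 10000 * ((z i - m) * (η i - e)) - κ * (z i - m) ^ 2 + 6 / 1000 * (z i - m)
      - 115 / 100 * (1 - 809 / 500 * m) * e + (κ * m * (1 - m) + c - M * (2 / 3)) := by
    intro i hi
    have h1 := point (hz0 i hi) (hz1 i hi) (hη0 i hi) (hη1 i hi) hm1 hm2 he1 he2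
    have h2 := hCIII (z i - m)
    have h3 : q i = z i * η i / ((z i / m + η i / e) / 2) := by rw [hq]
    rw [← h3] at h1
    linarith
  have hsum := sum_le_sum hpt
  have e1 : ∑ i ∈ N, (191 / 500 * ((e * z i + m * η i) / 2 - q i)
      + 2427 / 10000 * ((z i - m) * (η i - e)) - κ * (z i - m) ^ 2 + 6 / 1000 * (z i - m)
      - 115 / 100 * (1 - 809 / 500 * m) * e + (κ * m * (1 - m) + c - M * (2 / 3))) =
      191 / 500 * ((e * (∑ i ∈ N, z i) + m * (∑ i ∈ N, η i)) / 2 - ∑ i ∈ N, q i)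
      + 2427 / 10000 * (∑ i ∈ N, z i * η i - e * (∑ i ∈ N, z i) - m * (∑ i ∈ N, η i) + n * (m * e))
      - κ * (∑ i ∈ N, z i ^ 2 - 2 * m * (∑ i ∈ N, z i) + n * m ^ 2)
      + 6 / 1000 * (∑ i ∈ N, z i - n * m)
      + n * (- (115 / 100 * (1 - 809 / 500 * m) * e) + (κ * m * (1 - m) + c - M * (2 / 3))) := by
    have h0 : ∀ i, (191 / 500 * ((e * z i + m * η i) / 2 - q i)
      + 2427 / 10000 * ((z i - m) * (η i - e)) - κ * (z i - m) ^ 2 + 6 / 1000 * (z i - m)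
      - 115 / 100 * (1 - 809 / 500 * m) * e + (κ * m * (1 - m) + c - M * (2 / 3))) =
      (191 / 500 * e / 2 - 2427 / 10000 * e + 2 * κ * m + 6 / 1000) * z i
      + (191 / 500 * m / 2 - 2427 / 10000 * m) * η i - 191 / 500 * q i
      + 2427 / 10000 * (z i * η i) - κ * (z i ^ 2)
      + (2427 / 10000 * (m * e) - κ * m ^ 2 - 6 / 1000 * m
        - 115 / 100 * (1 - 809 / 500 * m) * e + (κ * m * (1 - m) + c - M * (2 / 3))) := by
      intro i; ring
    simp_rw [h0]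
    rw [sum_add_distrib, sum_sub_distrib, sum_add_distrib, sum_sub_distrib, sum_add_distrib,
      ← mul_sum, ← mul_sum, ← mul_sum, ← mul_sum, ← mul_sum, sum_const, nsmul_eq_mul, ← hndef]
    ring
  rw [e1, sum_const, nsmul_eq_mul, ← hndef, hm, he] at hsum
  -- Cauchy-Schwarz
  have hCS : n * ((∑ i ∈ N, √(z i * η i)) / n) ^ 2 ≤ ∑ i ∈ N, q i := by
    have h1 : (∑ i ∈ N, √(z i * η i)) ^ 2 ≤
        (∑ i ∈ N, (z i / m + η i / e) / 2) * ∑ i ∈ N, q i := by
      apply Finset.sum_sq_le_sum_mul_sum_of_sq_le_mul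
      · intro i hi
        have := hz0 i hi
        have := hη0 i hi
        positivity
      · intro i hi
        have := hz0 i hi
        have := hη0 i hi
        rw [hq]
        positivity
      · intro i hi
        have hz := hz0 i hi
        have hη := hη0 i hi
        rw [Real.sq_sqrt (mul_nonneg hz hη)]
        apply le_of_eq
        rcases (by positivity : 0 ≤ (z i / m + η i / e) / 2).eq_or_lt with h | h
        · have h2 : 0 ≤ z i / m := by positivity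
          have h3 : 0 ≤ η i / e := by positivity
          have h4 : z i / m = 0 := by linarith
          have h5 : z i = 0 := by
            rcases div_eq_zero_iff.1 h4 with h | h
            · exact h
            · exact absurd h hm0.ne'
          rw [← h, h5]
          simp
        · rw [hq]
          simp only
          rw [mul_div_cancel₀ _ h.ne']
    have h2 : ∑ i ∈ N, (z i / m + η i / e) / 2 = n := by
      rw [← sum_div, sum_add_distrib, ← sum_div, ← sum_div, hm, he]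
      field_simp
      ring
    rw [h2] at h1
    have h3 : n * ((∑ i ∈ N, √(z i * η i)) / n) ^ 2 = (∑ i ∈ N, √(z i * η i)) ^ 2 / n := by
      field_simp
    rw [h3, div_le_iff₀ hn]
    linarith
  -- conclusion
  have key : n * (1 / 10000) ≤ n * ((2 * m - 1 - 3 / 20) * e
      - 191 / 500 * ((∑ i ∈ N, √(z i * η i)) / n) ^ 2
      + 2427 / 10000 * ((∑ i ∈ N, z i * η i) / n)
      + κ * (m - (∑ i ∈ N, z i ^ 2) / n)
      + c - M * (2 / 3)) := by
    have h4 : n * ((2 * m - 1 - 3 / 20) * e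
      - 191 / 500 * ((∑ i ∈ N, √(z i * η i)) / n) ^ 2
      + 2427 / 10000 * ((∑ i ∈ N, z i * η i) / n)
      + κ * (m - (∑ i ∈ N, z i ^ 2) / n)
      + c - M * (2 / 3)) = n * ((2 * m - 1 - 3 / 20) * e) -
      191 / 500 * (n * ((∑ i ∈ N, √(z i * η i)) / n) ^ 2) + 2427 / 10000 * (∑ i ∈ N, z i * η i)
      + κ * (n * m - ∑ i ∈ N, z i ^ 2) + n * (c - M * (2 / 3)) := by
      field_simp
      ring
    rw [h4]
    nlinarith
  exact le_of_mul_le_mul_left key hn

end Pool.Agent.H286R2.UC.U11aux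

namespace Pool.Agent.H286R2.UC

open Real Finset Pool.Agent.H117R2 Pool.Agent.H117R2.UC Pool.Agent.H286R2.UC

theorem law_on {ι : Type*} (N : Finset ι) (hN : N.Nonempty) (z η : ι → ℝ)
    (hz0 : ∀ i ∈ N, 0 ≤ z i) (hz1 : ∀ i ∈ N, z i ≤ 1) (hη0 : ∀ i ∈ N, 0 ≤ η i)
    (hη1 : ∀ i ∈ N, η i ≤ log 2) {m e : ℝ} (hm : ∑ i ∈ N, z i = m * N.card)
    (he : ∑ i ∈ N, η i = e * N.card) (hm1 : 615 / 1000 ≤ m) (hm2 : m ≤ 62 / 100)
    (he1 : 3319 / 10000 ≤ e) (he2 : e ≤ 2 / 3) :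
    1 / 10000 ≤ (2 * m - 1 - 3 / 20) * e
      - 191 / 500 * ((∑ i ∈ N, √(z i * η i)) / N.card) ^ 2
      + 2427 / 10000 * ((∑ i ∈ N, z i * η i) / N.card)
      + 3 / 20 * log (3 / 2) * (m - (∑ i ∈ N, z i ^ 2) / N.card)
      + 3 / 20 * log (24 / 25) - max 0 (1 - 809 / 500 * m) * (2 / 3) :=
  U11aux.law_on N hN z η hz0 hz1 hη0 hη1 hm he hm1 hm2 he1 he2

end Pool.Agent.H286R2.UC
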